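import Pool.Agent.H8.AW.Ev

/-!
# MP_821da1_nt, AllCurves: an integer point above the threshold lies on a real branch
-/

namespace Pool.Agent.H8.AW

open Finset Polynomial Pool.Agent.H72.ES Pool.Agent.H87.SA2

/-- the value of `f(t,Z) = t^d F(1/t, Z/t)` at `t = 1/x`, `Z = y/x` -/
theorem fI_eval (d : ℕ) (F : ℕ → ℕ → ℤ) (x y : ℤ) (hx : (x : ℂ) ≠ 0) :
    ((fI d F).map (eval₂RingHom (Int.castRingHom ℂ) (1 / (x : ℂ)))).eval ((y : ℂ) / (x : ℂ)) *
      (x : ℂ) ^ d = ((ev d F x y : ℤ) : ℂ) := by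
  unfold fI ev
  rw [Polynomial.map_sum, eval_finsetSum, sum_mul]
  push_cast
  rw [Finset.sum_sigma']
  have h1 : ∀ j ∈ range (d + 1),
      eval ((y : ℂ) / x) (Polynomial.map (eval₂RingHom (Int.castRingHom ℂ) (1 / (x : ℂ)))
        (C (∑ i ∈ range (d + 1 - j), C (F i j) * X ^ (d - i - j)) * X ^ j)) * (x : ℂ) ^ d =
      ∑ i ∈ range (d + 1 - j), (F i j : ℂ) * (x : ℂ) ^ i * (y : ℂ) ^ j := by
    intro j hj
    rw [Polynomial.map_mul, Polynomial.map_pow, map_C, map_X, eval_mul, eval_pow, eval_C, eval_X,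
      map_sum, sum_mul, sum_mul]
    refine sum_congr rfl fun i hi => ?_
    rw [mem_range] at hi hj
    rw [coe_eval₂RingHom, eval₂_mul, eval₂_C, eval₂_pow, eval₂_X, eq_intCast, one_div, inv_pow,
      div_pow]
    have e1 : (x : ℂ) ^ d = (x : ℂ) ^ (d - i - j) * (x : ℂ) ^ j * (x : ℂ) ^ i := by
      rw [← pow_add, ← pow_add]
      congr 1
      omega
    rw [e1]
    have e2 : (x : ℂ) ^ (d - i - j) ≠ 0 := pow_ne_zero _ hx
    have e3 : (x : ℂ) ^ j ≠ 0 := pow_ne_zero _ hx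
    field_simp
  rw [sum_congr rfl h1]
  rw [Finset.sum_sigma']
  refine Finset.sum_bij' (fun p _ => ⟨p.2, p.1⟩) (fun p _ => ⟨p.2, p.1⟩) ?_ ?_ ?_ ?_ ?_
  · intro p hp
    simp only [mem_sigma, mem_range] at hp ⊢
    omega
  · intro p hp
    simp only [mem_sigma, mem_range] at hp ⊢
    omega
  · intro p hp; rfl
  · intro p hp; rfl
  · intro p hp; rfl

/-- a nonzero integer polynomial does not vanish at `1/x` for large `x` -/
theorem aeval_inv_ne {c : ℤ[X]} (hc : c ≠ 0) {b : ℕ} (hb : ∀ i, |c.coeff i| ≤ (b : ℤ)) {x : ℤ}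
    (hx : (b : ℝ) + 1 ≤ |(x : ℝ)|) :
    eval₂ (Int.castRingHom ℂ) (1 / (x : ℂ)) c ≠ 0 := by
  intro h0
  have hxR : (x : ℝ) ≠ 0 := by
    intro h
    rw [h, abs_zero] at hx
    have : (0 : ℝ) ≤ b := Nat.cast_nonneg b
    linarith
  have hxC : (x : ℂ) ≠ 0 := by exact_mod_cast hxR
  have h1ne : (1 / (x : ℂ)) ≠ 0 := one_div_ne_zero hxC
  let _ : Invertible (1 / (x : ℂ)) := invertibleOfNonzero h1ne
  have h1 := (eval₂_reverse_eq_zero_iff (Int.castRingHom ℂ) (1 / (x : ℂ)) c).2 h0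
  rw [invOf_eq_inv, one_div, inv_inv] at h1
  have hr0 : c.reverse ≠ 0 := by
    intro h
    exact hc (by rwa [reverse_eq_zero] at h)
  have hne : c.reverse.map (Int.castRingHom ℂ) ≠ 0 :=
    (Polynomial.map_ne_zero_iff (Int.castRingHom ℂ).injective_int).2 hr0
  have hroot : (c.reverse.map (Int.castRingHom ℂ)).IsRoot (x : ℂ) := by
    rw [IsRoot, eval_map]
    exact h1
  have h2 : ‖(x : ℂ)‖ < ((cauchyBound (c.reverse.map (Int.castRingHom ℂ)) : NNReal) : ℝ) := by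
    have h := hroot.norm_lt_cauchyBound hne
    rw [← NNReal.coe_lt_coe, coe_nnnorm] at h
    exact h
  have hl : c.reverse.leadingCoeff ≠ 0 := leadingCoeff_ne_zero.2 hr0
  have hl1 : (1 : ℝ) ≤ ‖((c.reverse.leadingCoeff : ℤ) : ℂ)‖ := by
    rw [Complex.norm_intCast, ← Int.cast_abs]
    exact_mod_cast Int.one_le_abs hl
  have h3 : cauchyBound (c.reverse.map (Int.castRingHom ℂ)) ≤ (b : NNReal) + 1 := by
    unfold cauchyBound
    have hl2 : (c.reverse.map (Int.castRingHom ℂ)).leadingCoeff =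
        ((c.reverse.leadingCoeff : ℤ) : ℂ) := by
      rw [leadingCoeff_map_of_injective (Int.castRingHom ℂ).injective_int]
      simp
    rw [hl2]
    gcongr
    have h4 : (sup (range (c.reverse.map (Int.castRingHom ℂ)).natDegree) fun i =>
        ‖(c.reverse.map (Int.castRingHom ℂ)).coeff i‖₊) ≤ (b : NNReal) := by
      refine Finset.sup_le fun i _ => ?_
      rw [coeff_map]
      have h3 : ‖((Int.castRingHom ℂ) (c.reverse.coeff i))‖ ≤ (b : ℝ) := by
        rw [eq_intCast, Complex.norm_intCast, ← Int.cast_abs]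
        have h5 : |c.reverse.coeff i| ≤ (b : ℤ) := by
          rw [coeff_reverse]
          exact hb _
        exact_mod_cast h5
      exact_mod_cast h3
    refine (div_le_self (zero_le) ?_).trans h4
    rw [← NNReal.coe_le_coe, coe_nnnorm, NNReal.coe_one]
    exact hl1
  have h4 : ((cauchyBound (c.reverse.map (Int.castRingHom ℂ)) : NNReal) : ℝ) ≤ (b : ℝ) + 1 := by
    exact_mod_cast h3
  rw [Complex.norm_intCast] at h2
  linarith

variable {k : Type} [Field k] {n d b : ℕ} {F : ℕ → ℕ → ℤ}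

/-- different branches have different values at large `x` -/
theorem CrvA.sep (Q : CrvA k n d b F) {x : ℤ} (hx : (b : ℝ) + 1 ≤ |(x : ℝ)|) {T : ℂ}
    (hT : Q.pd.R * ‖T‖ < 1) (hTx : ((Q.pd.q : ℂ) * T) ^ Q.pd.e * (x : ℂ) = 1) {i j : Fin d}
    (hij : evT T (Q.pd.x i) = evT T (Q.pd.x j)) : i = j := by
  by_contra hne
  obtain ⟨u, v, c, hc0, hbez, -, hcb⟩ := Q.bez
  have hxC : (x : ℂ) ≠ 0 := by
    rintro h
    rw [h, mul_zero] at hTx
    exact zero_ne_one hTx
  have ht : ((Q.pd.q : ℂ) * T) ^ Q.pd.e = 1 / (x : ℂ) := by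
    rw [eq_div_iff hxC]
    exact hTx
  have hs := split_at Q.pd hT
  rw [ht] at hs
  set φ := eval₂RingHom (Int.castRingHom ℂ) (1 / (x : ℂ)) with hφ
  set w := evT T (Q.pd.x i) with hw
  have h1 : (fI d F).map φ = (X - C w) * ((X - C w) *
      ∏ l ∈ (Finset.univ.erase i).erase j, (X - C (evT T (Q.pd.x l)))) := by
    rw [hs, ← Finset.mul_prod_erase Finset.univ _ (Finset.mem_univ i),
      ← Finset.mul_prod_erase (Finset.univ.erase i) _
        (Finset.mem_erase.mpr ⟨fun h => hne h.symm, Finset.mem_univ j⟩), ← hij]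
  have h2 := congrArg (fun p => (p.map φ).eval w) hbez
  simp only [Polynomial.map_add, Polynomial.map_mul, map_C, eval_add, eval_mul, eval_C,
    ← derivative_map] at h2
  rw [h1] at h2
  have h3 : eval w ((X - C w) * ((X - C w) *
      ∏ l ∈ (Finset.univ.erase i).erase j, (X - C (evT T (Q.pd.x l))))) = 0 := by
    rw [eval_mul, eval_sub, eval_X, eval_C, sub_self, zero_mul]
  have h4 : eval w (derivative ((X - C w) * ((X - C w) *
      ∏ l ∈ (Finset.univ.erase i).erase j, (X - C (evT T (Q.pd.x l)))))) = 0 := by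
    rw [derivative_mul, derivative_mul]
    simp
  rw [h3, h4, mul_zero, mul_zero, add_zero] at h2
  exact aeval_inv_ne hc0 hcb hx h2.symm

/-- the branch of an integer point -/
theorem CrvA.branch (Q : CrvA k n d b F) {x y : ℤ} (hz : ev d F x y = 0) (hx : x ≠ 0) {T : ℂ}
    (hT : Q.pd.R * ‖T‖ < 1) (hTx : ((Q.pd.q : ℂ) * T) ^ Q.pd.e * (x : ℂ) = 1) :
    ∃ i : Fin d, evT T (Q.pd.x i) = (y : ℂ) / (x : ℂ) := by
  have hxC : (x : ℂ) ≠ 0 := by exact_mod_cast hx
  have ht : ((Q.pd.q : ℂ) * T) ^ Q.pd.e = 1 / (x : ℂ) := by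
    rw [eq_div_iff hxC]
    exact hTx
  have hs := split_at Q.pd hT
  rw [ht] at hs
  have h1 := fI_eval d F x y hxC
  rw [hz, Int.cast_zero, hs, eval_prod] at h1
  have h2 := (mul_eq_zero.1 h1).resolve_right (pow_ne_zero _ hxC)
  obtain ⟨i, -, hi⟩ := prod_eq_zero_iff.1 h2
  refine ⟨i, ?_⟩
  rw [eval_sub, eval_X, eval_C, sub_eq_zero] at hi
  exact hi.symm

theorem tq_rescale {e q : ℕ} {ζ : ℂ} (hζ : ζ ^ e = 1) :
    (PowerSeries.rescale ζ).comp (tq e q) = tq e q := by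
  refine Polynomial.ringHom_ext (fun a => ?_) ?_
  · rw [RingHom.comp_apply]
    unfold tq
    simp
  · rw [RingHom.comp_apply]
    unfold tq
    rw [coe_eval₂RingHom, eval₂_X, map_pow, map_mul, PowerSeries.rescale_X, yr_rC]
    have h1 : (PowerSeries.C (q : ℂ) * (PowerSeries.C ζ * PowerSeries.X)) ^ e =
        PowerSeries.C (ζ ^ e) * (PowerSeries.C (q : ℂ) * PowerSeries.X) ^ e := by
      rw [map_pow, ← mul_pow]
      congr 1
      ring
    rw [h1, hζ, map_one, one_mul]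

theorem tq_conj' (e q : ℕ) :
    (PowerSeries.map (starRingEnd ℂ)).comp (tq e q) = tq e q := by
  refine Polynomial.ringHom_ext (fun a => ?_) ?_
  · rw [RingHom.comp_apply]
    unfold tq
    simp
  · rw [RingHom.comp_apply]
    unfold tq
    simp only [coe_eval₂RingHom, eval₂_X, map_pow, map_mul, PowerSeries.map_X,
      map_natCast]

/-- a homomorphism fixing `tq` permutes the branches -/
theorem perm_of {f : ℤ[X][X]} (pd : PData f d) (φ : PowerSeries ℂ →+* PowerSeries ℂ)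
    (hφ : φ.comp (tq pd.e pd.q) = tq pd.e pd.q) (i : Fin d) : ∃ j : Fin d, φ (pd.x i) = pd.x j := by
  have h1 : (f.map (tq pd.e pd.q)).map φ = f.map (tq pd.e pd.q) := by
    rw [Polynomial.map_map, hφ]
  have h2 : ∏ i, (X - C (φ (pd.x i))) = ∏ i, (X - C (pd.x i)) := by
    have h3 := h1
    rw [pd.split, Polynomial.map_prod] at h3
    simpa using h3
  have h4 := congrArg (Polynomial.eval (φ (pd.x i))) h2
  rw [Polynomial.eval_prod, Polynomial.eval_prod] at h4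
  have h5 : ∏ j, Polynomial.eval (φ (pd.x i)) (X - C (φ (pd.x j))) = 0 :=
    Finset.prod_eq_zero (Finset.mem_univ i) (by simp)
  rw [h5] at h4
  obtain ⟨j, -, hj⟩ := Finset.prod_eq_zero_iff.mp h4.symm
  refine ⟨j, ?_⟩
  rw [Polynomial.eval_sub, Polynomial.eval_X, Polynomial.eval_C] at hj
  exact sub_eq_zero.mp hj

/-- the embedding carried by the branch of a real point is real -/
theorem CrvA.real [NumberField k] (Q : CrvA k n d b F) {x y : ℤ}
    (hx : (b : ℝ) + 1 ≤ |(x : ℝ)|) {T : ℂ} (hT : Q.pd.R * ‖T‖ < 1)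
    (hTx : ((Q.pd.q : ℂ) * T) ^ Q.pd.e * (x : ℂ) = 1) {i : Fin d}
    (hi : evT T (Q.pd.x i) = (y : ℂ) / (x : ℂ)) :
    ∃ τ : k →+* ℝ, Q.kp.kap i = Complex.ofRealHom.comp τ := by
  have hxC : (x : ℂ) ≠ 0 := by
    rintro h
    rw [h, mul_zero] at hTx
    exact zero_ne_one hTx
  have ht : ((Q.pd.q : ℂ) * T) ^ Q.pd.e = 1 / (x : ℂ) := by
    rw [eq_div_iff hxC]
    exact hTx
  have he : Q.pd.e ≠ 0 := by have := Q.pd.e_pos; omega
  have hT0 : T ≠ 0 := by
    rintro rfl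
    rw [mul_zero, zero_pow he] at ht
    exact one_div_ne_zero hxC ht.symm
  have hq0 : (Q.pd.q : ℂ) ≠ 0 := by
    have := Q.pd.q_pos
    exact_mod_cast (by omega : Q.pd.q ≠ 0)
  obtain ⟨j, hj⟩ := perm_of Q.pd (PowerSeries.map (starRingEnd ℂ)) (tq_conj' _ _) i
  set ζ : ℂ := starRingEnd ℂ T / T with hζ
  have hζT : ζ * T = starRingEnd ℂ T := by rw [hζ]; field_simp
  have hζe : ζ ^ Q.pd.e = 1 := by
    have h1 : starRingEnd ℂ (((Q.pd.q : ℂ) * T) ^ Q.pd.e) = ((Q.pd.q : ℂ) * T) ^ Q.pd.e := by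
      rw [ht]
      simp
    rw [map_pow, map_mul, Complex.conj_natCast, mul_pow, mul_pow] at h1
    have h2 := mul_left_cancel₀ (pow_ne_zero _ hq0) h1
    rw [hζ, div_pow, h2]
    exact div_self (pow_ne_zero _ hT0)
  obtain ⟨l, hl⟩ := perm_of Q.pd (PowerSeries.rescale ζ) (tq_rescale hζe) j
  have hev : evT T (Q.pd.x l) = (y : ℂ) / (x : ℂ) := by
    rw [← hl, evT_rescale, hζT, ← hj, evT_conj, hi]
    simp
  have hli : l = i := Q.sep hx hT hTx (hev.trans hi.symm)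
  have hk1 : Q.kp.kap l = Q.kp.kap j := Q.kp.rot ζ j l hζe hl
  have hk2 : ∀ z : k, starRingEnd ℂ (Q.kp.kap i z) = Q.kp.kap j z := by
    intro z
    have halg : Q.kp.kap i z ∈ AA := by
      rw [mem_algebraicClosure_iff]
      have h1 : IsIntegral ℚ z := Algebra.IsIntegral.isIntegral z
      exact (h1.map ((Q.kp.kap i).toRatAlgHom)).isAlgebraic
    have h1 := Q.kp.gal ((starRingEnd ℂ).comp (algebraMap AA ℂ)) i j ?_ z ⟨_, halg⟩ rfl
    · exact h1
    · intro m a ha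
      rw [← hj]
      change starRingEnd ℂ (a : ℂ) = PowerSeries.coeff m ((Q.pd.x i).map (starRingEnd ℂ))
      rw [PowerSeries.coeff_map, ha]
  have hreal : NumberField.ComplexEmbedding.IsReal (Q.kp.kap i) := by
    rw [NumberField.ComplexEmbedding.isReal_iff]
    refine RingHom.ext fun z => ?_
    rw [NumberField.ComplexEmbedding.conjugate_coe_eq, hk2, ← hk1, hli]
  refine ⟨hreal.embedding, RingHom.ext fun z => ?_⟩
  rw [RingHom.comp_apply]
  exact (hreal.coe_embedding_apply z).symm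

/-- **An integer point above the threshold is exceptional.** -/
theorem CrvA.exc [NumberField k] (Q : CrvA k n d b F) {c : ℕ} (hc : 4 * n.factorial ≤ c)
    {x y : ℤ} (hz : ev d F x y = 0) (hx : (b : ℝ) ^ c ≤ |(x : ℝ)|) :
    ∃ τ : k →+* ℝ, ExcA k τ n c x y := by
  have hb2 : (2 : ℝ) ≤ b := by exact_mod_cast Q.b2
  have hn1 : 1 ≤ n.factorial := Nat.factorial_pos n
  have hb1 : (b : ℝ) + 1 ≤ |(x : ℝ)| := by
    calc (b : ℝ) + 1 ≤ (b : ℝ) ^ 2 := by nlinarith
      _ ≤ (b : ℝ) ^ c := pow_le_pow_right₀ (by linarith) (by omega)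
      _ ≤ _ := hx
  have hx0 : x ≠ 0 := by
    rintro rfl
    rw [Int.cast_zero, abs_zero] at hb1
    linarith
  have hxC : (x : ℂ) ≠ 0 := by exact_mod_cast hx0
  have he : 0 < Q.pd.e := Q.pd.e_pos
  have hq0 : (Q.pd.q : ℂ) ≠ 0 := by
    have := Q.pd.q_pos
    exact_mod_cast (by omega : Q.pd.q ≠ 0)
  obtain ⟨S, hS⟩ := IsAlgClosed.exists_pow_nat_eq (1 / (x : ℂ)) he
  set T : ℂ := S / (Q.pd.q : ℂ) with hTdef
  have hqT : (Q.pd.q : ℂ) * T = S := by rw [hTdef]; field_simp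
  have hTx : ((Q.pd.q : ℂ) * T) ^ Q.pd.e * (x : ℂ) = 1 := by
    rw [hqT, hS]
    field_simp
  have hSn : ‖S‖ < 1 / (b : ℝ) ^ 2 := by
    by_contra hcon
    push Not at hcon
    have hb0 : (0 : ℝ) < (b : ℝ) ^ 2 := by positivity
    have h1 : (1 / (b : ℝ) ^ 2) ^ Q.pd.e ≤ ‖S‖ ^ Q.pd.e :=
      pow_le_pow_left₀ (by positivity) hcon _
    rw [← norm_pow, hS, norm_div, norm_one, Complex.norm_intCast, one_div_pow] at h1
    have hxp : (0 : ℝ) < |(x : ℝ)| := by linarith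
    rw [one_div_le_one_div (by positivity) hxp, ← pow_mul] at h1
    have h2 : 2 * Q.pd.e < c := by
      have h3 : Q.pd.e ≤ n.factorial := Q.e_le.trans (Nat.factorial_le Q.dn)
      omega
    have h3 : (b : ℝ) ^ (2 * Q.pd.e) < (b : ℝ) ^ c := pow_lt_pow_right₀ (by linarith) h2
    linarith
  have hTn : ‖T‖ ≤ ‖S‖ := by
    rw [hTdef, norm_div, Complex.norm_natCast]
    have h1 : (1 : ℝ) ≤ Q.pd.q := by exact_mod_cast Q.pd.q_pos
    exact div_le_self (norm_nonneg _) h1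
  have hT : Q.pd.R * ‖T‖ < 1 := by
    have h1 : Q.pd.R * ‖T‖ ≤ b * ‖S‖ :=
      mul_le_mul Q.R_le hTn (norm_nonneg _) (by linarith)
    have h2 : (b : ℝ) * ‖S‖ < b * (1 / (b : ℝ) ^ 2) :=
      mul_lt_mul_of_pos_left hSn (by linarith)
    have h3 : (b : ℝ) * (1 / (b : ℝ) ^ 2) ≤ 1 := by
      have : (b : ℝ) ≠ 0 := by linarith
      rw [mul_one_div, div_le_one (by positivity)]
      nlinarith
    linarith
  obtain ⟨i, hi⟩ := Q.branch hz hx0 hT hTx
  obtain ⟨τ, hτ⟩ := Q.real hb1 hT hTx hi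
  refine ⟨τ, d, b, F, Q, i, T, hz, hTx, ?_, hτ, hx⟩
  rw [← hi]
  have hR : 0 ≤ Q.pd.R := by linarith [Q.pd.R_ge]
  exact (CvT_of hR (Q.pd.growth i) hT).hasSum

/-- the embeddings composed with an automorphism of `k` -/
def Kap.twist {f : ℤ[X][X]} {pd : PData f d} (K : Kap k pd) (α : k ≃+* k) : Kap k pd where
  kap i := (K.kap i).comp (α : k →+* k)
  gal σ i j h z a ha := K.gal σ i j h (α z) a ha
  rot ζ i j h h' := by rw [K.rot ζ i j h h']

/-- the type may be changed by an automorphism of `k` -/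
theorem ExcA.twist {τ : k →+* ℝ} {c : ℕ} {x y : ℤ} (h : ExcA k τ n c x y) (α : k ≃+* k) :
    ExcA k (τ.comp (α : k →+* k)) n c x y := by
  obtain ⟨d, b, F, Q, i, T, h1, h2, h3, h4, h5⟩ := h
  refine ⟨d, b, F, { Q with kp := Q.kp.twist α }, i, T, h1, h2, h3, ?_, h5⟩
  change (Q.kp.kap i).comp (α : k →+* k) = _
  rw [h4]
  rfl

end Pool.Agent.H8.AW
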