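import Pool.Agent.H8.AW.Pt

/-!
# MP_821da1_nt, AllCurves: at most one window for each subfield of `ℝ` isomorphic to `k`
-/

namespace Pool.Agent.H8.AW

open Finset Polynomial Pool.Agent.H72.ES Pool.Agent.H87.SA2

/-- the exceptional sizes belonging to a subfield of `ℝ`; the size `m` and the coordinate `x` are
comparable up to the power `a` -/
def SizeA (k : Type) [Field k] (K : Subfield ℝ) (n c a m : ℕ) : Prop :=
  ∃ (τ : k →+* ℝ) (x y : ℤ), τ.fieldRange = K ∧ ExcA k τ n c x y ∧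
    |(x : ℝ)| ≤ (m : ℝ) ^ a ∧ (m : ℝ) ≤ |(x : ℝ)| ^ a

/-- embeddings with the same image differ by an automorphism -/
theorem exists_aut {k : Type} [Field k] {τ τ' : k →+* ℝ} (h : τ.fieldRange = τ'.fieldRange) :
    ∃ α : k ≃+* k, τ' = τ.comp (α : k →+* k) := by
  have h1 : ∀ z : k, ∃ w : k, τ w = τ' z := fun z => by
    have h2 : τ' z ∈ τ.fieldRange := by
      rw [h]
      exact ⟨z, rfl⟩
    exact h2
  have h2 : ∀ z : k, ∃ w : k, τ' w = τ z := fun z => by
    have h3 : τ z ∈ τ'.fieldRange := by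
      rw [← h]
      exact ⟨z, rfl⟩
    exact h3
  choose g hg using h1
  choose g' hg' using h2
  refine ⟨{ toFun := g
            invFun := g'
            left_inv := fun z => τ'.injective (by rw [hg', hg])
            right_inv := fun z => τ.injective (by rw [hg, hg'])
            map_mul' := fun a b => τ.injective (by rw [map_mul, hg, hg, hg, map_mul])
            map_add' := fun a b => τ.injective (by rw [map_add, hg, hg, hg, map_add]) }, ?_⟩
  exact RingHom.ext fun z => (hg z).symm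

theorem sizeA_repel {k : Type} [Field k] {K : Subfield ℝ} {n c a w : ℕ}
    (hrep : ∀ (τ : k →+* ℝ) (x1 y1 x2 y2 : ℤ), ExcA k τ n c x1 y1 → ExcA k τ n c x2 y2 →
      |(x2 : ℝ)| ≤ |(x1 : ℝ)| ^ w) {m1 m2 : ℕ}
    (h1 : SizeA k K n c a m1) (h2 : SizeA k K n c a m2) : m2 ≤ m1 ^ (a * w * a) := by
  obtain ⟨τ1, x1, y1, hK1, he1, hl1, hu1⟩ := h1
  obtain ⟨τ2, x2, y2, hK2, he2, hl2, hu2⟩ := h2
  obtain ⟨α, hα⟩ := exists_aut (hK2.trans hK1.symm)
  have he2' := he2.twist α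
  rw [← hα] at he2'
  have h3 := hrep τ1 x1 y1 x2 y2 he1 he2'
  have h4 : (m2 : ℝ) ≤ (m1 : ℝ) ^ (a * w * a) := by
    calc (m2 : ℝ) ≤ |(x2 : ℝ)| ^ a := hu2
      _ ≤ (|(x1 : ℝ)| ^ w) ^ a := pow_le_pow_left₀ (abs_nonneg _) h3 _
      _ ≤ (((m1 : ℝ) ^ a) ^ w) ^ a := by gcongr
      _ = (m1 : ℝ) ^ (a * w * a) := by
          rw [← pow_mul, ← pow_mul]
          congr 1
          ring
  exact_mod_cast h4

/-- the subfields of `ℝ` isomorphic to a number field form a finite set -/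
theorem finite_realA (k : Type) [Field k] [NumberField k] :
    {K : Subfield ℝ | Nonempty (k ≃+* K)}.Finite := by
  refine (Set.finite_range fun τ : k →+* ℝ => τ.fieldRange).subset ?_
  rintro K ⟨e⟩
  refine ⟨K.subtype.comp (e : k →+* K), ?_⟩
  ext x
  constructor
  · rintro ⟨z, rfl⟩
    exact (e z).2
  · intro hx
    exact ⟨e.symm ⟨x, hx⟩, by simp⟩

/-- **At most one window for each subfield of `ℝ` isomorphic to `k`.** -/
theorem windowsA (k : Type) [Field k] [NumberField k] {n c a w : ℕ}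
    (hrep : ∀ (τ : k →+* ℝ) (x1 y1 x2 y2 : ℤ), ExcA k τ n c x1 y1 → ExcA k τ n c x2 y2 →
      |(x2 : ℝ)| ≤ |(x1 : ℝ)| ^ w) :
    ∃ S : Finset ℕ, S.card ≤ Set.ncard {K : Subfield ℝ | Nonempty (k ≃+* K)} ∧
      ∀ (τ : k →+* ℝ) (x y : ℤ) (m : ℕ), ExcA k τ n c x y → |(x : ℝ)| ≤ (m : ℝ) ^ a →
        (m : ℝ) ≤ |(x : ℝ)| ^ a → ∃ M ∈ S, M ≤ m ∧ m ≤ M ^ (a * w * a) := by
  classical
  have hfin := finite_realA k
  have : Fintype {K : Subfield ℝ | Nonempty (k ≃+* K)} := hfin.fintype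
  let M : {K : Subfield ℝ | Nonempty (k ≃+* K)} → ℕ := fun K =>
    if h : ∃ m : ℕ, SizeA k K n c a m then Nat.find h else 0
  refine ⟨univ.image M, ?_, ?_⟩
  · refine card_image_le.trans ?_
    rw [card_univ, ← Nat.card_eq_fintype_card, Nat.card_coe_set_eq]
  · intro τ x y m he hl hu
    obtain ⟨K, hK⟩ : ∃ K : {K : Subfield ℝ | Nonempty (k ≃+* K)}, (K : Subfield ℝ) =
      τ.fieldRange := ⟨⟨τ.fieldRange, ⟨τ.rangeRestrictFieldEquiv⟩⟩, rfl⟩
    have hS : SizeA k K n c a m := ⟨τ, x, y, hK.symm, he, hl, hu⟩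
    have hex : ∃ m : ℕ, SizeA k K n c a m := ⟨m, hS⟩
    have hMi : M K = Nat.find hex := dif_pos hex
    refine ⟨M K, mem_image_of_mem _ (mem_univ _), ?_, ?_⟩
    · rw [hMi]
      exact Nat.find_min' hex hS
    · rw [hMi]
      exact sizeA_repel hrep (Nat.find_spec hex) hS

end Pool.Agent.H8.AW
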