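import Pool.Agent.H8.AW.Defs

/-!
# MP_821da1_nt, AllCurves: evaluation of convergent power series at a complex number
-/

namespace Pool.Agent.H8.AW

open Finset Polynomial Pool.Agent.H72.ES Pool.Agent.H87.SA2

/-- the series converges absolutely at `T` -/
def CvT (T : ℂ) (a : PowerSeries ℂ) : Prop :=
  Summable fun m : ℕ => ‖PowerSeries.coeff m a * T ^ m‖

/-- the value at `T` -/
noncomputable def evT (T : ℂ) (a : PowerSeries ℂ) : ℂ := ∑' m : ℕ, PowerSeries.coeff m a * T ^ m

theorem CvT.hasSum {T : ℂ} {a : PowerSeries ℂ} (h : CvT T a) :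
    HasSum (fun m : ℕ => PowerSeries.coeff m a * T ^ m) (evT T a) :=
  (Summable.of_norm h).hasSum

theorem hasSum_C (T c : ℂ) :
    HasSum (fun m : ℕ => PowerSeries.coeff m (PowerSeries.C c) * T ^ m) c := by
  have h := hasSum_single (f := fun m : ℕ => PowerSeries.coeff m (PowerSeries.C c) * T ^ m) 0
    (fun m hm => by rw [PowerSeries.coeff_C, if_neg hm, zero_mul])
  simpa using h

theorem hasSum_X (T : ℂ) :
    HasSum (fun m : ℕ => PowerSeries.coeff m (PowerSeries.X : PowerSeries ℂ) * T ^ m) T := by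
  have h := hasSum_single (f := fun m : ℕ => PowerSeries.coeff m (PowerSeries.X : PowerSeries ℂ) *
    T ^ m) 1 (fun m hm => by rw [PowerSeries.coeff_X, if_neg hm, zero_mul])
  simpa using h

theorem CvT.C (T c : ℂ) : CvT T (PowerSeries.C c) := by
  refine summable_of_ne_finset_zero (s := {0}) fun m hm => ?_
  rw [PowerSeries.coeff_C, if_neg (by simpa using hm), zero_mul, norm_zero]

theorem CvT.X (T : ℂ) : CvT T PowerSeries.X := by
  refine summable_of_ne_finset_zero (s := {1}) fun m hm => ?_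
  rw [PowerSeries.coeff_X, if_neg (by simpa using hm), zero_mul, norm_zero]

theorem CvT.add {T : ℂ} {a b : PowerSeries ℂ} (ha : CvT T a) (hb : CvT T b) : CvT T (a + b) := by
  refine Summable.of_nonneg_of_le (fun m => norm_nonneg _) (fun m => ?_) (Summable.add ha hb)
  rw [map_add, add_mul]
  exact norm_add_le _ _

theorem CvT.neg {T : ℂ} {a : PowerSeries ℂ} (ha : CvT T a) : CvT T (-a) := by
  have h : (fun m : ℕ => ‖PowerSeries.coeff m (-a) * T ^ m‖) =
      fun m : ℕ => ‖PowerSeries.coeff m a * T ^ m‖ := by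
    funext m
    rw [map_neg, neg_mul, norm_neg]
  unfold CvT
  rw [h]
  exact ha

theorem coeff_mul_pow (T : ℂ) (a b : PowerSeries ℂ) (m : ℕ) :
    PowerSeries.coeff m (a * b) * T ^ m = ∑ p ∈ antidiagonal m,
      (PowerSeries.coeff p.1 a * T ^ p.1) * (PowerSeries.coeff p.2 b * T ^ p.2) := by
  rw [PowerSeries.coeff_mul, sum_mul]
  refine sum_congr rfl fun p hp => ?_
  rw [← mem_antidiagonal.1 hp, pow_add]
  ring

theorem CvT.mul {T : ℂ} {a b : PowerSeries ℂ} (ha : CvT T a) (hb : CvT T b) : CvT T (a * b) := by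
  have h := summable_norm_sum_mul_antidiagonal_of_summable_norm ha hb
  unfold CvT
  simp_rw [coeff_mul_pow]
  exact h

theorem evT_mul {T : ℂ} {a b : PowerSeries ℂ} (ha : CvT T a) (hb : CvT T b) :
    evT T (a * b) = evT T a * evT T b := by
  unfold evT
  rw [tsum_mul_tsum_eq_tsum_sum_antidiagonal_of_summable_norm ha hb]
  simp_rw [coeff_mul_pow]

theorem evT_add {T : ℂ} {a b : PowerSeries ℂ} (ha : CvT T a) (hb : CvT T b) :
    evT T (a + b) = evT T a + evT T b := by
  refine HasSum.tsum_eq ?_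
  have h := ha.hasSum.add hb.hasSum
  convert h using 2
  rw [map_add, add_mul]

theorem evT_C (T c : ℂ) : evT T (PowerSeries.C c) = c := (hasSum_C T c).tsum_eq

theorem evT_X (T : ℂ) : evT T PowerSeries.X = T := (hasSum_X T).tsum_eq

/-- the subring of series converging absolutely at `T` -/
def cvT (T : ℂ) : Subring (PowerSeries ℂ) where
  carrier := {a | CvT T a}
  mul_mem' := fun ha hb => CvT.mul ha hb
  one_mem' := by
    have := CvT.C T 1
    rwa [map_one] at this
  add_mem' := fun ha hb => CvT.add ha hb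
  zero_mem' := by
    have := CvT.C T 0
    rwa [map_zero] at this
  neg_mem' := fun ha => CvT.neg ha

/-- evaluation at `T` -/
noncomputable def evH (T : ℂ) : cvT T →+* ℂ where
  toFun a := evT T a.1
  map_one' := by
    have := evT_C T 1
    rwa [map_one] at this
  map_mul' a b := evT_mul a.2 b.2
  map_zero' := by
    have := evT_C T 0
    rwa [map_zero] at this
  map_add' a b := evT_add a.2 b.2

/-- geometric growth -/
theorem CvT_of {T : ℂ} {a : PowerSeries ℂ} {R : ℝ} (hR : 0 ≤ R)
    (h : ∀ m, ‖PowerSeries.coeff m a‖ ≤ R ^ (m + 1)) (hT : R * ‖T‖ < 1) : CvT T a := by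
  refine Summable.of_nonneg_of_le (fun m => norm_nonneg _) (fun m => ?_)
    ((summable_geometric_of_lt_one (mul_nonneg hR (norm_nonneg T)) hT).mul_left R)
  rw [norm_mul, norm_pow, mul_pow, ← mul_assoc, ← pow_succ']
  exact mul_le_mul_of_nonneg_right (h m) (pow_nonneg (norm_nonneg _) _)

/-- conjugation -/
theorem evT_conj (T : ℂ) (a : PowerSeries ℂ) :
    evT (starRingEnd ℂ T) (a.map (starRingEnd ℂ)) = starRingEnd ℂ (evT T a) := by
  unfold evT
  rw [Complex.conj_tsum]
  refine tsum_congr fun m => ?_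
  rw [PowerSeries.coeff_map, map_mul, map_pow]

/-- rescaling -/
theorem evT_rescale (T ζ : ℂ) (a : PowerSeries ℂ) :
    evT T (PowerSeries.rescale ζ a) = evT (ζ * T) a := by
  unfold evT
  refine tsum_congr fun m => ?_
  rw [PowerSeries.coeff_rescale, mul_pow]
  ring

variable {f : ℤ[X][X]} {d : ℕ}

/-- the factorisation of `f((q T)^e, Z)` for a number `T` -/
theorem split_at (pd : PData f d) {T : ℂ} (hT : pd.R * ‖T‖ < 1) :
    f.map (eval₂RingHom (Int.castRingHom ℂ) (((pd.q : ℂ) * T) ^ pd.e)) =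
      ∏ i, (X - C (evT T (pd.x i))) := by
  have hR : 0 ≤ pd.R := by linarith [pd.R_ge]
  let X' : cvT T := ⟨PowerSeries.X, CvT.X T⟩
  let c : cvT T := ⟨PowerSeries.C (pd.q : ℂ), CvT.C T _⟩
  let y : Fin d → cvT T := fun i => ⟨pd.x i, CvT_of hR (pd.growth i) hT⟩
  have hinj : Function.Injective (cvT T).subtype := Subtype.val_injective
  have h1 : f.map (eval₂RingHom (Int.castRingHom (cvT T)) ((c * X') ^ pd.e)) =
      ∏ i, (X - C (y i)) := by
    apply Polynomial.map_injective _ hinj
    rw [Polynomial.map_map, yr_comp, Polynomial.map_prod]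
    refine Eq.trans ?_ (pd.split.trans ?_)
    · unfold tq
      congr 2
    · refine prod_congr rfl fun i _ => ?_
      rw [Polynomial.map_sub, Polynomial.map_X, Polynomial.map_C]
      rfl
  have h2 := yr_mapsplit (evH T) _ _ h1
  have hX : evH T X' = T := evT_X T
  have hc : evH T c = (pd.q : ℂ) := evT_C T _
  rw [map_pow, map_mul, hX, hc] at h2
  exact h2

end Pool.Agent.H8.AW
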