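import Pool.Agent.H97.XC.Pdx
import Pool.Agent.H87.SA2.PERM

/-!
# MP_821da1_nt, AllCurves: the interface between the two-point theorem and the windows

`fI d F` is the polynomial `f(t,Z) = t^d F(1/t, Z/t)` of an array `F` (coefficient of `x^i y^j`,
total degree `≤ d`, `F 0 d = 1`).
`Kap k pd`: every branch at infinity carries an embedding of `k` into `ℂ`, equivariantly.
`ExcA k τ n c x y`: `(x,y)` is an integer point on such a curve of degree `≤ n`, above the threshold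
`b^c`, on a branch of type `τ`.
-/

namespace Pool.Agent.H8.AW

open Finset Polynomial Pool.Agent.H72.ES Pool.Agent.H87.SA2

/-- `f(t,Z) = t^d F(1/t, Z/t)` -/
noncomputable def fI (d : ℕ) (F : ℕ → ℕ → ℤ) : ℤ[X][X] :=
  ∑ j ∈ range (d + 1), C (∑ i ∈ range (d + 1 - j), C (F i j) * X ^ (d - i - j)) * X ^ j

/-- the polynomial `F(X, Y)` over `ℚ` -/
noncomputable def FQ (d : ℕ) (F : ℕ → ℕ → ℤ) : ℚ[X][X] :=
  ∑ j ∈ range (d + 1), C (∑ i ∈ range (d + 1 - j), C ((F i j : ℤ) : ℚ) * X ^ i) * X ^ j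

/-- Every branch at infinity carries an embedding of `k`, compatible with the conjugations of the
coefficients and with the substitutions `T ↦ ζ T`. -/
structure Kap (k : Type) [Field k] {f : ℤ[X][X]} {d : ℕ} (pd : PData f d) where
  kap : Fin d → (k →+* ℂ)
  gal : ∀ (σ : AA →+* ℂ) (i j : Fin d),
    (∀ (m : ℕ) (a : AA), (a : ℂ) = PowerSeries.coeff m (pd.x i) →
      σ a = PowerSeries.coeff m (pd.x j)) →
    ∀ (z : k) (a : AA), (a : ℂ) = kap i z → σ a = kap j z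
  rot : ∀ (ζ : ℂ) (i j : Fin d), ζ ^ pd.e = 1 →
    PowerSeries.rescale ζ (pd.x i) = pd.x j → kap j = kap i

/-- A curve with `k` at infinity, all constants bounded by `b`. -/
structure CrvA (k : Type) [Field k] (n d b : ℕ) (F : ℕ → ℕ → ℤ) where
  d4 : 4 ≤ d
  dn : d ≤ n
  b2 : 2 ≤ b
  lead : F 0 d = 1
  le : ∀ i j, |F i j| ≤ (b : ℤ)
  irr : Irreducible (FQ d F)
  pd : PData (fI d F) d
  e_le : pd.e ≤ d.factorial
  q_le : pd.q ≤ b
  R_le : pd.R ≤ b
  kp : Kap k pd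
  bez : ∃ (u v : ℤ[X][X]) (c : ℤ[X]), c ≠ 0 ∧ u * fI d F + v * derivative (fI d F) = C c ∧
    c.natDegree ≤ 2 * d * d ∧ ∀ i, |c.coeff i| ≤ (b : ℤ)

/-- An integer point above the threshold `b^c` on a curve with `k` at infinity, on a branch of
type `τ`. -/
def ExcA (k : Type) [Field k] (τ : k →+* ℝ) (n c : ℕ) (x y : ℤ) : Prop :=
  ∃ (d b : ℕ) (F : ℕ → ℕ → ℤ) (Q : CrvA k n d b F) (i : Fin d) (T : ℂ),
    ev d F x y = 0 ∧ ((Q.pd.q : ℂ) * T) ^ Q.pd.e * (x : ℂ) = 1 ∧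
    HasSum (fun m => PowerSeries.coeff m (Q.pd.x i) * T ^ m) ((y : ℂ) / (x : ℂ)) ∧
    Q.kp.kap i = Complex.ofRealHom.comp τ ∧ (b : ℝ) ^ c ≤ |(x : ℝ)|

end Pool.Agent.H8.AW
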